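import Pool.Agent.H96.JCT.Stmts

/-!
Row CIR of the board `jct`: the circle is the lower half circle followed by the reversed upper one.
-/

namespace Pool.JCT

open Complex Set Topology Filter

theorem cir_continuous_circ (ε : ℝ) : Continuous (circ ε) := by
  unfold circ
  fun_prop

theorem cir_continuous_upp (ε : ℝ) : Continuous (upp ε) := by
  unfold upp
  fun_prop

theorem cir_continuous_low (ε : ℝ) : Continuous (low ε) := by
  unfold low
  fun_prop

theorem cir_ne {ε : ℝ} {p q : Pl} (hp : Disc ε p) (hq : q.1 ^ 2 + q.2 ^ 2 = ε ^ 2) (Ψ : Pl ≃ₜ Pl) :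
    Ψ q ≠ Ψ p := by
  intro h
  have h1 := Ψ.injective h
  rw [h1] at hq
  unfold Disc at hp
  linarith

theorem cir_thm (hADD : ADD_S) (hREP : REP_S) : CIR_S := by
  intro Ψ ε p hε hp
  have cC : Continuous (fun t => Ψ (circ ε t)) := Ψ.continuous.comp (cir_continuous_circ ε)
  have cU : Continuous (fun t => Ψ (upp ε t)) := Ψ.continuous.comp (cir_continuous_upp ε)
  have cL : Continuous (fun t => Ψ (low ε t)) := Ψ.continuous.comp (cir_continuous_low ε)
  have nC : ∀ t, Ψ (circ ε t) ≠ Ψ p := fun t => cir_ne hp (by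
    change (ε * Real.cos t) ^ 2 + (ε * Real.sin t) ^ 2 = ε ^ 2
    linear_combination ε ^ 2 * Real.sin_sq_add_cos_sq t) Ψ
  have nU : ∀ t, Ψ (upp ε t) ≠ Ψ p := fun t => cir_ne hp (by
    change (-(ε * Real.cos t)) ^ 2 + (ε * Real.sin t) ^ 2 = ε ^ 2
    linear_combination ε ^ 2 * Real.sin_sq_add_cos_sq t) Ψ
  have nL : ∀ t, Ψ (low ε t) ≠ Ψ p := fun t => cir_ne hp (by
    change (-(ε * Real.cos t)) ^ 2 + (-(ε * Real.sin t)) ^ 2 = ε ^ 2
    linear_combination ε ^ 2 * Real.sin_sq_add_cos_sq t) Ψ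
  have hpi := Real.pi_pos
  -- first half
  have h1 : inc (fun t => Ψ (circ ε t)) 0 Real.pi (Ψ p) =
      inc (fun t => Ψ (upp ε t)) Real.pi 0 (Ψ p) := by
    refine hREP _ _ (fun t => Real.pi - t) 0 Real.pi Real.pi 0 (Ψ p) cU cC
      (Continuous.continuousOn (by fun_prop)) ?_ (by ring) (by ring) ?_ (fun t _ => nU t)
    · intro t ht
      rw [uIcc_of_le hpi.le] at ht
      rw [uIcc_of_ge hpi.le]
      exact ⟨by linarith [ht.2], by linarith [ht.1]⟩
    · intro t _
      have : circ ε t = upp ε (Real.pi - t) := by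
        unfold circ upp
        rw [Real.cos_pi_sub, Real.sin_pi_sub]
        refine Prod.ext ?_ rfl
        change ε * Real.cos t = -(ε * -Real.cos t)
        ring
      change Ψ (circ ε t) = Ψ (upp ε (Real.pi - t))
      rw [this]
  have h2 : inc (fun t => Ψ (circ ε t)) Real.pi (2 * Real.pi) (Ψ p) =
      inc (fun t => Ψ (low ε t)) 0 Real.pi (Ψ p) := by
    refine hREP _ _ (fun t => t - Real.pi) Real.pi (2 * Real.pi) 0 Real.pi (Ψ p) cL cC
      (Continuous.continuousOn (by fun_prop)) ?_ (by ring) (by ring) ?_ (fun t _ => nL t)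
    · intro t ht
      rw [uIcc_of_le (by linarith)] at ht
      rw [uIcc_of_le hpi.le]
      exact ⟨by linarith [ht.1], by linarith [ht.2]⟩
    · intro t _
      have : circ ε t = low ε (t - Real.pi) := by
        unfold circ low
        rw [Real.cos_sub_pi, Real.sin_sub_pi]
        refine Prod.ext ?_ ?_
        · change ε * Real.cos t = -(ε * -Real.cos t)
          ring
        · change ε * Real.sin t = -(ε * -Real.sin t)
          ring
      change Ψ (circ ε t) = Ψ (low ε (t - Real.pi))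
      rw [this]
  have h3 := (hADD _ (Ψ p) cU).2.1 0 Real.pi (fun t _ => nU t)
  have h4 := (hADD _ (Ψ p) cC).2.2.1 0 Real.pi (2 * Real.pi) (fun t _ => nC t) (fun t _ => nC t)
  rw [← h4, h1, h2, h3]
  ring

end Pool.JCT
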